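import Pool.Agent.W525.CB.Stm2

/-!
# The canonical divisor of `Z` (project CB)
-/

set_option autoImplicit false

open AlgebraicGeometry CategoryTheory Order

namespace Pool.Agent.W348.CB

open Pool.Agent.H187R3 Pool.Agent.W525.CB

section ord

variable {X : Scheme.{0}} [IsIntegral X] [IsLocallyNoetherian X]

theorem ord_one' (P : X) : Scheme.ord (1 : X.functionField) P = 0 := by
  have h := Scheme.ord_mul (X := X) (x := P) (f := 1) (g := 1) one_ne_zero one_ne_zero
  rw [mul_one] at h
  omega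

theorem ord_neg' (P : X) {f : X.functionField} (hf : f ≠ 0) :
    Scheme.ord (-f) P = Scheme.ord f P := by
  have h1 : Scheme.ord (-1 : X.functionField) P = 0 := by
    have h := Scheme.ord_mul (X := X) (x := P) (f := -1) (g := -1)
      (neg_ne_zero.2 one_ne_zero) (neg_ne_zero.2 one_ne_zero)
    rw [neg_mul_neg, mul_one, ord_one'] at h
    omega
  have h2 := Scheme.ord_mul (X := X) (x := P) (f := -1) (g := f) (neg_ne_zero.2 one_ne_zero) hf
  rw [neg_one_mul, h1, zero_add] at h2
  exact h2

theorem ord_inv' (P : X) {f : X.functionField} (hf : f ≠ 0) :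
    Scheme.ord f⁻¹ P = -Scheme.ord f P := by
  have h := Scheme.ord_mul (X := X) (x := P) hf (inv_ne_zero hf)
  rw [mul_inv_cancel₀ hf, ord_one'] at h
  omega

theorem ord_pow' (P : X) {f : X.functionField} (hf : f ≠ 0) (m : ℕ) :
    Scheme.ord (f ^ m) P = m * Scheme.ord f P := by
  induction m with
  | zero => rw [pow_zero, ord_one']; simp
  | succ m ih =>
    rw [pow_succ, Scheme.ord_mul (pow_ne_zero _ hf) hf, ih]
    push_cast
    ring

theorem ord_unit (hord : S_ORD) (hX : IsNormalScheme X) (P : X) (hP : coheight P = 1)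
    {f : X.functionField} (hf : f ≠ 0)
    (h1 : f ∈ (algebraMap (X.presheaf.stalk P) X.functionField).range)
    (h2 : f⁻¹ ∈ (algebraMap (X.presheaf.stalk P) X.functionField).range) :
    Scheme.ord f P = 0 := by
  have a1 := (hord X hX P hP f hf).2 h1
  have a2 := (hord X hX P hP f⁻¹ (inv_ne_zero hf)).2 h2
  rw [ord_inv' P hf] at a2
  omega

end ord

theorem main : S_ACANZ := by
  classical
  intro parts n k E _ _ _ _ _ _ x y hn hE hnor hlif M
  have hnorM : IsNormalScheme M.X := hnor.2 M
  obtain ⟨X, hX0, hferm, hX1, hκX, hκss, hloc⟩ := hlif M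
  let algL : Algebra k M.X.functionField := (kmap M.f).toAlgebra
  obtain ⟨htr, hgen, hchart⟩ := hloc
  have hchar : CharP M.X.functionField (n + 2) :=
    charP_of_injective_algebraMap (algebraMap k M.X.functionField).injective (n + 2)
  choose c hc using fun σ => parts.basz n k M.X.functionField X hn hX0 hferm htr σ (hgen σ)
  choose sg hsgU hsgI using (parts.cov n k E x y hn hE).2 M
  have hss0 : ∀ σ i, ss X σ i ≠ 0 := fun σ i => div_ne_zero (hX0 _) (hX0 _)
  have hss : ∀ σ i, ss X σ i ∈ Algebra.adjoin k (Set.range (ss X σ)) := fun σ i =>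
    Algebra.subset_adjoin (Set.mem_range_self i)
  have hinv : ∀ P, (ss X (sg P) 1)⁻¹ ∈
      (algebraMap (M.X.presheaf.stalk P) M.X.functionField).range := by
    intro P
    obtain ⟨r, hr⟩ := hsgI P
    refine ⟨r, ?_⟩
    apply M.κ.injective
    rw [map_inv₀, hκss]
    exact hr
  have hlat : ∀ P, (Submodule.span (M.X.presheaf.stalk P) (Set.range (c (sg P))) :
      Submodule (M.X.presheaf.stalk P) _) =
        diffLattice (M.X.presheaf.stalk P) M.X.functionField := by
    intro P
    have h1 : Set.range (c (sg P)) = Set.range (cfamZ X (sg P)) := by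
      congr 1
      funext i
      exact hc (sg P) i
    rw [h1]
    exact parts.latz n k M.X.functionField X hn hX0 hferm (sg P) (M.X.presheaf.stalk P)
      (hchart (sg P) P (hsgU P)).1 (hchart (sg P) P (hsgU P)).2 (hinv P)
  let t : Fin (n + 1) → M.X.functionField := fun i => ss X 1 i.succ.succ
  have hct : ∀ i, c 1 i = KaehlerDifferential.D ℤ M.X.functionField (t i) := fun i => hc 1 i
  have hklt : IsKlt M.X := parts.klt k (n + 2) M.X M.f hnorM (Fin (n + 1)) t (c 1) hct
    (fun P => ⟨c (sg P), hlat P⟩)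
  set δ : M.X → M.X.functionField := fun P =>
    (c (sg P)).det (fun i => KaehlerDifferential.D ℤ M.X.functionField (t i)) with hδ
  have hδ0 : ∀ P, δ P ≠ 0 := by
    intro P
    have h1 : (fun i => KaehlerDifferential.D ℤ M.X.functionField (t i)) = c 1 := by
      funext i
      exact (hct i).symm
    rw [hδ]
    simp only
    rw [h1]
    exact ((c (sg P)).isUnit_det (c 1)).ne_zero
  refine ⟨hklt, fun P => Scheme.ord (δ P) P, ss X 1 1 ^ (2 * n + 4), pow_ne_zero _ (hss0 _ _),
    ⟨Fin (n + 1), inferInstance, inferInstance, t, fun P _ =>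
      ⟨c (sg P), hlat P, hδ0 P, rfl⟩⟩, ?_⟩
  intro P hP σ hσ H hH
  -- the function `H`
  have hHX : H = (X (σ 0))⁻¹ := by
    apply M.κ.injective
    rw [hH, map_inv₀, hκX, inv_div]
  -- the volume forms
  have hvol := parts.volz n M.X.functionField X hn hX0 hferm (sg P) (c (sg P)).det
  have hA1 : (c (sg P)).det (cfamZ X (sg P)) = 1 := by
    have h1 : cfamZ X (sg P) = c (sg P) := by
      funext i
      exact (hc (sg P) i).symm
    rw [h1]
    exact (c (sg P)).det_self
  have hA2 : (c (sg P)).det (cfamZ X 1) = δ P := rfl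
  have e1 : Scheme.ord (ss X 1 1 ^ (2 * n + 4)) P =
      Scheme.ord (δ P * (ss X (sg P) 1 ^ (2 * n + 4) * X (sg P 0) ^ (n + 2))) P := by
    rcases hvol with h | h
    · rw [hA1, hA2, hX1, one_pow, mul_one, one_mul] at h
      rw [h]
    · rw [hA1, hA2, hX1, one_pow, mul_one, one_mul] at h
      rw [h, ord_neg' P (mul_ne_zero (hδ0 P) (mul_ne_zero (pow_ne_zero _ (hss0 _ _))
        (pow_ne_zero _ (hX0 _))))]
  rw [Scheme.ord_mul (hδ0 P) (mul_ne_zero (pow_ne_zero _ (hss0 _ _)) (pow_ne_zero _ (hX0 _))),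
    Scheme.ord_mul (pow_ne_zero _ (hss0 _ _)) (pow_ne_zero _ (hX0 _)),
    ord_pow' P (hss0 (sg P) 1), ord_pow' P (hX0 _)] at e1
  have e2 : Scheme.ord (ss X (sg P) 1) P = 0 :=
    ord_unit parts.ord hnorM P hP (hss0 _ _)
      ((hchart (sg P) P (hsgU P)).1 _ (hss _ _)) (hinv P)
  -- independence of the chart
  have e3 : Scheme.ord (X (σ 0)) P = Scheme.ord (X (sg P 0)) P := by
    have h1 : ss X (sg P) ((sg P)⁻¹ (σ 0)) = X (σ 0) / X (sg P 0) := by
      simp [ss]
    have h2 : ss X σ (σ⁻¹ (sg P 0)) = X (sg P 0) / X (σ 0) := by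
      simp [ss]
    have h3 : Scheme.ord (X (σ 0) / X (sg P 0)) P = 0 := by
      apply ord_unit parts.ord hnorM P hP (div_ne_zero (hX0 _) (hX0 _))
      · rw [← h1]
        exact (hchart (sg P) P (hsgU P)).1 _ (hss _ _)
      · rw [inv_div, ← h2]
        exact (hchart σ P hσ).1 _ (hss _ _)
    rw [div_eq_mul_inv, Scheme.ord_mul (hX0 _) (inv_ne_zero (hX0 _)), ord_inv' P (hX0 _)] at h3
    omega
  rw [e2] at e1
  rw [hHX, ord_inv' P (hX0 _), e3, e1]
  push_cast
  ring

end Pool.Agent.W348.CB
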